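import Pool.Agent.H612.EAR
import Pool.Agent.H612.CollectPoly

/-!
# The complexity class `∀∃ℝ` and the surjectivity problem for integer polynomial maps
-/

namespace Pool.Agent.NPC.ER

open Pool.Agent.NPC.H612

/-- The sentence `∀ x ∃ y, φ` is true over the real numbers; here `p = (E, φ)`, where `E` is the
list of the universally quantified variables, all the other variables are existentially
quantified, and `φ` is quantifier-free. -/
def AER (p : List ℕ × Fm) : Prop := ∀ x : ℕ → ℝ, ∃ y : ℕ → ℝ, p.2.Holds (mixv p.1 x y)

/-- The class `∀∃ℝ`: a language `L` belongs to it if some polynomial-time function maps every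
string `w` to a sentence `∀ x ∃ y, φ` which is true over the reals if and only if `w ∈ L`. -/
def InAER (L : Set (List Bool)) : Prop :=
  ∃ f : List Bool → List ℕ × Fm, PolyTime (fun w => bits (f w)) ∧ ∀ w, w ∈ L ↔ AER (f w)

/-- `∀∃ℝ`-hardness under polynomial-time many-one reductions. -/
def AERHard (L : Set (List Bool)) : Prop := ∀ L', InAER L' → Reduces L' L

/-- `∀∃ℝ`-hardness of a decision problem `P`, even for instances that satisfy `Pr`: every language
in `∀∃ℝ` reduces to `P` by a polynomial-time computable function all of whose values satisfy
`Pr`. -/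
def AERHardWithin {α : Type} [TEnc α] (Pr P : α → Prop) : Prop :=
  ∀ L : Set (List Bool), InAER L → ∃ h : List Bool → α, PolyTime (fun w => bits (h w)) ∧
    (∀ w, Pr (h w)) ∧ ∀ w, w ∈ L ↔ P (h w)

end Pool.Agent.NPC.ER

namespace Pool.Agent.NPC.R537SJ

open Pool.Agent.NPC.H612

/-- A polynomial map: the number `n` of variables and the list of the component polynomials in
`n` variables with integer coefficients, each given by its list of terms. -/
abbrev MapInst : Type := ℕ × List PolyData

/-- The map `ℝⁿ → ℝᵐ` described by an instance. -/
noncomputable def MapInst.eval (I : MapInst) (x : Fin I.1 → ℝ) : Fin I.2.length → ℝ :=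
  fun j => MvPolynomial.aeval x ((I.2.get j).toPoly I.1)

/-- The full-space surjectivity problem: the components are correctly described polynomials in
`n` variables with integer coefficients, and the map `ℝⁿ → ℝᵐ` is surjective. -/
def Surjectivity (I : MapInst) : Prop :=
  (∀ g ∈ I.2, PolyData.Valid I.1 g) ∧ Function.Surjective I.eval

/-- The total degree of every component is at most `7`. -/
def DegreeLe7 (I : MapInst) : Prop := ∀ g ∈ I.2, ∀ t ∈ g, t.2.sum ≤ 7

end Pool.Agent.NPC.R537SJ
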