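import Pool.Agent.R537.SJ.Defs
import Pool.Agent.H612.AffMain

/-!
# Surjectivity of integer polynomial maps `ℝⁿ → ℝᵐ` is `∀∃ℝ`-hard
-/

namespace Pool.Agent.NPC.R537SJ

open Pool.Agent.NPC Pool.Agent.NPC.ER Pool.Agent.NPC.H612

/-- Product of two raw polynomials. -/
def mulRaw (a b : List (Bool × List ℕ)) : List (Bool × List ℕ) :=
  a.flatMap fun p => b.map fun p' => (xor p.1 p'.1, p.2 ++ p'.2)

theorem rawEval_mulRaw (y : ℕ → ℝ) (a b : List (Bool × List ℕ)) :
    rawEval y (mulRaw a b) = rawEval y a * rawEval y b := by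
  have h1 : ∀ (p : Bool × List ℕ) (q : List (Bool × List ℕ)),
      rawEval y (q.map fun p' => (xor p.1 p'.1, p.2 ++ p'.2)) =
        ((sgn p.1 : ℝ) * (p.2.map y).prod) * rawEval y q := by
    intro p q
    induction q with
    | nil => simp [rawEval]
    | cons p' q ih =>
      have e : rawEval y (p' :: q) = (sgn p'.1 : ℝ) * (p'.2.map y).prod + rawEval y q := by
        simp [rawEval]
      have e' : rawEval y ((p' :: q).map fun p' => (xor p.1 p'.1, p.2 ++ p'.2)) =
          (sgn (xor p.1 p'.1) : ℝ) * ((p.2 ++ p'.2).map y).prod +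
          rawEval y (q.map fun p' => (xor p.1 p'.1, p.2 ++ p'.2)) := by
        simp [rawEval]
      rw [e, e', ih, List.map_append, List.prod_append]
      have hs : (sgn (xor p.1 p'.1) : ℝ) = (sgn p.1 : ℝ) * (sgn p'.1 : ℝ) := by
        cases p.1 <;> cases p'.1 <;> simp [sgn]
      rw [hs]
      ring
  unfold mulRaw
  induction a with
  | nil => simp [rawEval]
  | cons p a ih =>
    have e : rawEval y (p :: a) = (sgn p.1 : ℝ) * (p.2.map y).prod + rawEval y a := by
      simp [rawEval]
    rw [List.flatMap_cons, rawEval_append, ih, h1, e]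
    ring

/-- All terms have at most `d` factors, with indices less than `n`. -/
def ROk (n d : ℕ) (a : List (Bool × List ℕ)) : Prop :=
  ∀ p ∈ a, p.2.length ≤ d ∧ ∀ i ∈ p.2, i < n

theorem ROk.mul {n d e : ℕ} {a b : List (Bool × List ℕ)} (ha : ROk n d a) (hb : ROk n e b) :
    ROk n (d + e) (mulRaw a b) := by
  intro p hp
  unfold mulRaw at hp
  rw [List.mem_flatMap] at hp
  obtain ⟨q, hq, hp⟩ := hp
  rw [List.mem_map] at hp
  obtain ⟨q', hq', rfl⟩ := hp
  have k1 := ha q hq
  have k2 := hb q' hq'
  refine ⟨by simp only [List.length_append]; omega, fun i hi => ?_⟩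
  rcases List.mem_append.1 hi with hi | hi
  · exact k1.2 i hi
  · exact k2.2 i hi

theorem ROk.append {n d : ℕ} {a b : List (Bool × List ℕ)} (ha : ROk n d a) (hb : ROk n d b) :
    ROk n d (a ++ b) := by
  intro p hp
  rcases List.mem_append.1 hp with hp | hp
  · exact ha p hp
  · exact hb p hp

theorem ROk.mono {n d e : ℕ} {a : List (Bool × List ℕ)} (ha : ROk n d a) (h : d ≤ e) :
    ROk n e a := fun p hp => ⟨(ha p hp).1.trans h, (ha p hp).2⟩

theorem rawEval_congr {n d : ℕ} {a : List (Bool × List ℕ)} (ha : ROk n d a) {y z : ℕ → ℝ}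
    (h : ∀ i < n, y i = z i) : rawEval y a = rawEval z a := by
  unfold rawEval
  congr 1
  apply List.map_congr_left
  intro p hp
  congr 2
  apply List.map_congr_left
  intro i hi
  exact h i ((ha p hp).2 i hi)

/-- All terms of the collected polynomial have degree at most `d` if all raw terms do. -/
theorem collect_deg_le {n d : ℕ} {raw : List (Bool × List ℕ)} (h : ROk n d raw) :
    ∀ t ∈ collect n raw, t.2.sum ≤ d := by
  intro t ht
  unfold collect at ht
  rw [List.mem_filter] at ht
  obtain ⟨h1, _⟩ := ht
  rw [List.mem_map] at h1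
  obtain ⟨e, he, rfl⟩ := h1
  rw [List.mem_dedup, List.map_map, List.mem_map] at he
  obtain ⟨p, hp, rfl⟩ := he
  simp only [Function.comp_def]
  rw [sum_expv p.2 (h p hp).2]
  exact (h p hp).1

/-- Surjectivity in terms of raw polynomials. -/
theorem surj_iff {n d : ℕ} {R : List (List (Bool × List ℕ))} (hR : ∀ a ∈ R, ROk n d a) :
    Surjectivity (n, R.map (collect n)) ↔
      ∀ t : ℕ → ℝ, ∃ w : ℕ → ℝ, ∀ j < R.length, rawEval w (R.getD j []) = t j := by
  have hlen : (R.map (collect n)).length = R.length := List.length_map _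
  have hev : ∀ (x : Fin n → ℝ) (j : Fin (R.map (collect n)).length),
      MapInst.eval (n, R.map (collect n)) x j = rawEval (xt x) (R.getD j []) := by
    intro x j
    have hj : (j : ℕ) < R.length := by rw [← hlen]; exact j.2
    show MvPolynomial.aeval x (((R.map (collect n)).get j).toPoly n) = _
    have e1 : (R.map (collect n)).get j = collect n (R.getD j []) := by
      rw [List.get_eq_getElem, List.getElem_map, List.getD_eq_getElem _ _ hj]
    rw [e1, List.getD_eq_getElem _ _ hj]
    exact aeval_collect _ (fun p hp => (hR _ (List.getElem_mem hj) p hp).2) x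
  constructor
  · rintro ⟨-, h⟩ t
    obtain ⟨x, hx⟩ := h fun j => t j
    refine ⟨xt x, fun j hj => ?_⟩
    have h1 := congrFun hx ⟨j, by show j < (R.map (collect n)).length; rw [hlen]; exact hj⟩
    rw [← h1]
    exact (hev x ⟨j, by rw [hlen]; exact hj⟩).symm
  · intro h
    refine ⟨?_, fun T => ?_⟩
    · intro g hg
      obtain ⟨a, _, rfl⟩ := List.mem_map.1 hg
      exact collect_valid n a
    · obtain ⟨w, hw⟩ := h fun j => if h : j < (R.map (collect n)).length then T ⟨j, h⟩ else 0
      refine ⟨fun i => w i, funext fun j => ?_⟩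
      have hj : (j : ℕ) < R.length := by rw [← hlen]; exact j.2
      have h1 := hw j hj
      rw [dif_pos j.2] at h1
      refine (hev (fun i => w i) j).trans (Eq.trans ?_ h1)
      apply rawEval_congr (n := n) (d := d)
      · rw [List.getD_eq_getElem _ _ hj]
        exact hR _ (List.getElem_mem hj)
      · intro i hi
        rw [xt_of_lt _ hi]

/-! ### The map of a sentence -/

/-- The universally quantified variables without repetitions. -/
def EE (p : List ℕ × Fm) : List ℕ := p.1.dedup

/-- The list of all variables. -/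
def VV (p : List ℕ × Fm) : List ℕ :=
  (EE p).map (fun i => 2 * i) ++ (sysOf p.2).flatMap Con.vars

/-- Raw polynomial of a constraint. -/
def craw (V : List ℕ) : Con → List (Bool × List ℕ)
  | .one i => [(false, [V.idxOf i]), (true, [])]
  | .add i j k => [(false, [V.idxOf i]), (false, [V.idxOf j]), (true, [V.idxOf k])]
  | .mul i j k => [(false, [V.idxOf i, V.idxOf j]), (true, [V.idxOf k])]

/-- The sum of the squares of the constraints and of the variable `u`. -/
def fraw (V : List ℕ) (S : List Con) : List (Bool × List ℕ) :=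
  S.flatMap (fun c => mulRaw (craw V c) (craw V c)) ++ [(false, [V.length + 3, V.length + 3])]

/-- The polynomial `1 + p q`. -/
def p1 (N : ℕ) : List (Bool × List ℕ) := [(false, []), (false, [N, N + 1])]

/-- The polynomial `q + s (1 + p q)`. -/
def p2 (N : ℕ) : List (Bool × List ℕ) :=
  [(false, [N + 1]), (false, [N + 2]), (false, [N + 2, N, N + 1])]

/-- The components of the map. -/
def comps (p : List ℕ × Fm) : List (List (Bool × List ℕ)) :=
  (EE p).map (fun i => [(false, [(VV p).idxOf (2 * i)])]) ++
    [mulRaw (p1 (VV p).length) (fraw (VV p) (sysOf p.2)),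
      mulRaw (p2 (VV p).length) (fraw (VV p) (sysOf p.2))]

/-- The number of variables of the map. -/
def sn (p : List ℕ × Fm) : ℕ := (VV p).length + 4

/-- The instance of a sentence. -/
def sinst (p : List ℕ × Fm) : MapInst := (sn p, (comps p).map (collect (sn p)))

theorem craw_ok {V : List ℕ} {c : Con} (h : ∀ i ∈ c.vars, i ∈ V) :
    ROk (V.length + 4) 2 (craw V c) := by
  have k : ∀ i ∈ c.vars, V.idxOf i < V.length + 4 := fun i hi => by
    have := List.idxOf_lt_length_of_mem (h i hi)
    omega
  cases c with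
  | one i =>
    have k1 := k i (by simp [Con.vars])
    intro p hp
    simp only [craw, List.mem_cons, List.not_mem_nil, or_false] at hp
    rcases hp with rfl | rfl <;> simp_all
  | add i j l =>
    have k1 := k i (by simp [Con.vars])
    have k2 := k j (by simp [Con.vars])
    have k3 := k l (by simp [Con.vars])
    intro p hp
    simp only [craw, List.mem_cons, List.not_mem_nil, or_false] at hp
    rcases hp with rfl | rfl | rfl <;> simp_all
  | mul i j l =>
    have k1 := k i (by simp [Con.vars])
    have k2 := k j (by simp [Con.vars])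
    have k3 := k l (by simp [Con.vars])
    intro p hp
    simp only [craw, List.mem_cons, List.not_mem_nil, or_false] at hp
    rcases hp with rfl | rfl <;> simp_all

theorem fraw_ok {V : List ℕ} {S : List Con} (h : ∀ c ∈ S, ∀ i ∈ c.vars, i ∈ V) :
    ROk (V.length + 4) 4 (fraw V S) := by
  unfold fraw
  apply ROk.append
  · intro p hp
    rw [List.mem_flatMap] at hp
    obtain ⟨c, hc, hp⟩ := hp
    exact (craw_ok (h c hc)).mul (craw_ok (h c hc)) p hp
  · intro p hp
    rw [List.mem_singleton] at hp
    subst hp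
    simp

theorem comps_ok (p : List ℕ × Fm) : ∀ a ∈ comps p, ROk (sn p) 7 a := by
  have hV : ∀ c ∈ sysOf p.2, ∀ i ∈ c.vars, i ∈ VV p := fun c hc i hi =>
    List.mem_append_right _ (List.mem_flatMap.2 ⟨c, hc, hi⟩)
  intro a ha
  unfold comps at ha
  rcases List.mem_append.1 ha with ha | ha
  · obtain ⟨i, hi, rfl⟩ := List.mem_map.1 ha
    have h1 : 2 * i ∈ VV p := List.mem_append_left _ (List.mem_map.2 ⟨i, hi, rfl⟩)
    have h2 := List.idxOf_lt_length_of_mem h1
    intro q hq
    rw [List.mem_singleton] at hq
    subst hq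
    simp only [List.length_cons, List.length_nil, List.mem_cons, List.not_mem_nil, or_false,
      forall_eq, sn]
    omega
  · have hp1 : ROk (sn p) 3 (p1 (VV p).length) := by
      intro q hq
      simp only [p1, List.mem_cons, List.not_mem_nil, or_false] at hq
      rcases hq with rfl | rfl <;> simp [sn]
    have hp2 : ROk (sn p) 3 (p2 (VV p).length) := by
      intro q hq
      simp only [p2, List.mem_cons, List.not_mem_nil, or_false] at hq
      rcases hq with rfl | rfl | rfl <;> simp [sn]
    have hf : ROk (sn p) 4 (fraw (VV p) (sysOf p.2)) := fraw_ok hV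
    simp only [List.mem_cons, List.not_mem_nil, or_false] at ha
    rcases ha with rfl | rfl
    · exact hp1.mul hf
    · exact hp2.mul hf

/-- The value of a constraint. -/
def cval (V : List ℕ) (w : ℕ → ℝ) : Con → ℝ
  | .one i => w (V.idxOf i) - 1
  | .add i j k => w (V.idxOf i) + w (V.idxOf j) - w (V.idxOf k)
  | .mul i j k => w (V.idxOf i) * w (V.idxOf j) - w (V.idxOf k)

theorem rawEval_craw (V : List ℕ) (w : ℕ → ℝ) (c : Con) :
    rawEval w (craw V c) = cval V w c := by
  cases c <;> simp [craw, rawEval, sgn, cval] <;> ring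

theorem rawEval_fraw (V : List ℕ) (S : List Con) (w : ℕ → ℝ) : rawEval w (fraw V S) =
    (S.map fun c => cval V w c ^ 2).sum + w (V.length + 3) ^ 2 := by
  have key : ∀ S : List Con, rawEval w (S.flatMap fun c => mulRaw (craw V c) (craw V c)) =
      (S.map fun c => cval V w c ^ 2).sum := by
    intro S
    induction S with
    | nil => simp [rawEval]
    | cons c S ih =>
      rw [List.flatMap_cons, rawEval_append, ih, rawEval_mulRaw, rawEval_craw, List.map_cons,
        List.sum_cons]
      ring
  unfold fraw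
  rw [rawEval_append, key]
  simp [rawEval, sgn]
  ring

theorem rawEval_p1 (N : ℕ) (w : ℕ → ℝ) : rawEval w (p1 N) = 1 + w N * w (N + 1) := by
  simp [p1, rawEval, sgn]

theorem rawEval_p2 (N : ℕ) (w : ℕ → ℝ) :
    rawEval w (p2 N) = w (N + 1) + w (N + 2) * (1 + w N * w (N + 1)) := by
  simp [p2, rawEval, sgn]
  ring

theorem sum_sq_nonneg' (l : List Con) (q : Con → ℝ) : 0 ≤ (l.map fun c => (q c) ^ 2).sum :=
  List.sum_nonneg (by
    intro x hx
    rw [List.mem_map] at hx
    obtain ⟨c, _, rfl⟩ := hx
    positivity)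

theorem holds_iff (V : List ℕ) (w : ℕ → ℝ) (c : Con) :
    c.Holds (fun i => w (V.idxOf i)) ↔ cval V w c = 0 := by
  cases c <;> simp [Con.Holds, cval, sub_eq_zero]

/-- The components of the map, as conditions. -/
theorem comps_iff (p : List ℕ × Fm) (w t : ℕ → ℝ) :
    (∀ j < (comps p).length, rawEval w ((comps p).getD j []) = t j) ↔
      (∀ j (hj : j < (EE p).length), w ((VV p).idxOf (2 * (EE p)[j])) = t j) ∧
      (1 + w (VV p).length * w ((VV p).length + 1)) *
        rawEval w (fraw (VV p) (sysOf p.2)) = t (EE p).length ∧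
      (w ((VV p).length + 1) + w ((VV p).length + 2) *
        (1 + w (VV p).length * w ((VV p).length + 1))) *
        rawEval w (fraw (VV p) (sysOf p.2)) = t ((EE p).length + 1) := by
  have hlen : (comps p).length = (EE p).length + 2 := by simp [comps]
  have e1 : ∀ j (hj : j < (EE p).length), (comps p).getD j [] =
      [(false, [(VV p).idxOf (2 * (EE p)[j])])] := by
    intro j hj
    unfold comps
    rw [List.getD_append _ _ _ _ (by simpa using hj), List.getD_eq_getElem _ _ (by simpa using hj),
      List.getElem_map]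
  have e2 : (comps p).getD (EE p).length [] =
      mulRaw (p1 (VV p).length) (fraw (VV p) (sysOf p.2)) := by
    unfold comps
    rw [List.getD_append_right _ _ _ _ (by simp)]
    simp
  have e3 : (comps p).getD ((EE p).length + 1) [] =
      mulRaw (p2 (VV p).length) (fraw (VV p) (sysOf p.2)) := by
    unfold comps
    rw [List.getD_append_right _ _ _ _ (by simp)]
    simp
  have f1 : ∀ i, rawEval w [(false, [i])] = w i := by intro i; simp [rawEval, sgn]
  constructor
  · intro h
    refine ⟨fun j hj => ?_, ?_, ?_⟩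
    · have := h j (by omega)
      rwa [e1 j hj, f1] at this
    · have := h (EE p).length (by omega)
      rwa [e2, rawEval_mulRaw, rawEval_p1] at this
    · have := h ((EE p).length + 1) (by omega)
      rwa [e3, rawEval_mulRaw, rawEval_p2] at this
  · rintro ⟨h1, h2, h3⟩ j hj
    rcases lt_or_ge j (EE p).length with h | h
    · rw [e1 j h, f1]
      exact h1 j h
    · rcases Nat.eq_or_lt_of_le h with h | h
      · rw [← h, e2, rawEval_mulRaw, rawEval_p1]
        exact h2
      · have : j = (EE p).length + 1 := by omega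
        rw [this, e3, rawEval_mulRaw, rawEval_p2]
        exact h3

/-- The punctured plane is the image of `(p, q, s) ↦ (1 + p q, q + s (1 + p q))`. -/
theorem exists_pqs {a b : ℝ} (h : a ≠ 0 ∨ b ≠ 0) :
    ∃ p q s : ℝ, 1 + p * q = a ∧ q + s * (1 + p * q) = b := by
  by_cases ha : a = 0
  · have hb : b ≠ 0 := h.resolve_left (by simpa using ha)
    refine ⟨-(1 / b), b, 0, ?_, ?_⟩
    · rw [ha]; field_simp; ring
    · ring
  · refine ⟨a - 1, 1, (b - 1) / a, by ring, ?_⟩
    have : 1 + (a - 1) * 1 = a := by ring
    rw [this]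
    field_simp
    ring

theorem pqs_ne {p q s : ℝ} (h1 : 1 + p * q = 0) (h2 : q + s * (1 + p * q) = 0) : False := by
  rw [h1, mul_zero, add_zero] at h2
  rw [h2] at h1
  norm_num at h1

theorem aer_of_surj (p : List ℕ × Fm)
    (h : ∀ t : ℕ → ℝ, ∃ w : ℕ → ℝ, ∀ j < (comps p).length,
      rawEval w ((comps p).getD j []) = t j) : AER p := by
  intro x
  obtain ⟨w, hw⟩ := h fun j => if h : j < (EE p).length then x (EE p)[j] else 0
  rw [comps_iff] at hw
  obtain ⟨h1, h2, h3⟩ := hw
  rw [dif_neg (by omega)] at h2 h3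
  have hF : rawEval w (fraw (VV p) (sysOf p.2)) = 0 := by
    by_contra hne
    exact pqs_ne ((mul_eq_zero.1 h2).resolve_right hne) ((mul_eq_zero.1 h3).resolve_right hne)
  rw [rawEval_fraw] at hF
  have hs := sum_sq_nonneg' (sysOf p.2) (cval (VV p) w)
  have hu : 0 ≤ w ((VV p).length + 3) ^ 2 := by positivity
  have hs0 : ((sysOf p.2).map fun c => cval (VV p) w c ^ 2).sum = 0 := by linarith
  have hc := sum_sq_eq_zero hs0
  have hsys : SysHolds (fun i => w ((VV p).idxOf i)) (sysOf p.2) := fun c hc' =>
    (holds_iff _ _ _).2 (hc c hc')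
  have hφ := (sysOf_spec p.2).1 _ hsys
  refine ⟨fun i => w ((VV p).idxOf (2 * i)), ?_⟩
  have e : mixv p.1 x (fun i => w ((VV p).idxOf (2 * i))) =
      fun i => w ((VV p).idxOf (2 * i)) := by
    funext i
    unfold mixv
    split_ifs with hi
    · have hi' : i ∈ EE p := List.mem_dedup.2 hi
      have hlt := List.idxOf_lt_length_of_mem hi'
      have h4 := h1 ((EE p).idxOf i) hlt
      rw [dif_pos hlt, List.getElem_idxOf hlt] at h4
      exact h4.symm
    · rfl
  rw [e]
  exact hφ

theorem surj_of_aer (p : List ℕ × Fm) (h : AER p) (t : ℕ → ℝ) :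
    ∃ w : ℕ → ℝ, ∀ j < (comps p).length, rawEval w ((comps p).getD j []) = t j := by
  have hnd : (EE p).Nodup := List.nodup_dedup _
  set N := (VV p).length with hN
  -- the position of a universally quantified variable
  have hpos : ∀ j (hj : j < (EE p).length), 2 * (EE p)[j] ∈ VV p := fun j hj =>
    List.mem_append_left _ (List.mem_map.2 ⟨_, List.getElem_mem hj, rfl⟩)
  by_cases hc : t (EE p).length = 0 ∧ t ((EE p).length + 1) = 0
  · obtain ⟨y, hy⟩ := h fun i => t ((EE p).idxOf i)
    obtain ⟨v, hv1, hv2⟩ := (sysOf_spec p.2).2 _ hy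
    obtain ⟨w, hval, hw0⟩ : ∃ w : ℕ → ℝ, (∀ i ∈ VV p, w ((VV p).idxOf i) = v i) ∧
        w (N + 3) = 0 := by
      refine ⟨fun k => if k < N then v ((VV p).getD k 0) else 0, fun i hi => ?_, ?_⟩
      · have hlt := List.idxOf_lt_length_of_mem hi
        simp only
        rw [if_pos hlt, List.getD_eq_getElem _ _ hlt, List.getElem_idxOf hlt]
      · simp
    refine ⟨w, ?_⟩
    have hF : rawEval w (fraw (VV p) (sysOf p.2)) = 0 := by
      rw [rawEval_fraw, ← hN, hw0]
      have h2 : ((sysOf p.2).map fun c => cval (VV p) w c ^ 2).sum = 0 := by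
        apply List.sum_eq_zero
        intro r hr
        obtain ⟨c, hc', rfl⟩ := List.mem_map.1 hr
        have h3 := hv2 c hc'
        have h4 : ∀ i ∈ c.vars, i ∈ VV p := fun i hi =>
          List.mem_append_right _ (List.mem_flatMap.2 ⟨c, hc', hi⟩)
        have h5 : cval (VV p) w c = 0 := by
          rw [← holds_iff]
          cases c with
          | one i =>
            simp only [Con.Holds] at h3 ⊢
            rw [hval i (h4 i (by simp [Con.vars])), h3]
          | add i j k =>
            simp only [Con.Holds] at h3 ⊢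
            rw [hval i (h4 i (by simp [Con.vars])), hval j (h4 j (by simp [Con.vars])),
              hval k (h4 k (by simp [Con.vars])), h3]
          | mul i j k =>
            simp only [Con.Holds] at h3 ⊢
            rw [hval i (h4 i (by simp [Con.vars])), hval j (h4 j (by simp [Con.vars])),
              hval k (h4 k (by simp [Con.vars])), h3]
        rw [h5]
        norm_num
      rw [h2]
      norm_num
    rw [comps_iff]
    refine ⟨fun j hj => ?_, ?_, ?_⟩
    · rw [hval _ (hpos j hj), hv1]
      simp only [mixv]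
      rw [if_pos (List.mem_dedup.1 (List.getElem_mem hj)), hnd.idxOf_getElem j hj]
    · rw [hF, hc.1, mul_zero]
    · rw [hF, hc.2, mul_zero]
  · -- the value is nonzero
    have hc' : t (EE p).length ≠ 0 ∨ t ((EE p).length + 1) ≠ 0 := by
      by_contra h'
      push Not at h'
      exact hc h'
    -- the base point
    let w₀ : ℕ → ℝ := fun k => if k < N then t ((EE p).idxOf ((VV p).getD k 0 / 2)) else 1
    have hbase : ∀ w : ℕ → ℝ, (∀ k < N, w k = w₀ k) → w (N + 3) = 1 →
        rawEval w (fraw (VV p) (sysOf p.2)) = rawEval w₀ (fraw (VV p) (sysOf p.2)) := by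
      intro w h1 h2
      rw [rawEval_fraw, rawEval_fraw, ← hN, h2]
      have h3 : w₀ (N + 3) = 1 := by simp [w₀]
      rw [h3]
      congr 2
      apply List.map_congr_left
      intro c hc'
      have h4 : ∀ i ∈ c.vars, (VV p).idxOf i < N := fun i hi =>
        List.idxOf_lt_length_of_mem (List.mem_append_right _ (List.mem_flatMap.2 ⟨c, hc', hi⟩))
      cases c with
      | one i =>
        simp only [cval]
        rw [h1 _ (h4 i (by simp [Con.vars]))]
      | add i j k =>
        simp only [cval]
        rw [h1 _ (h4 i (by simp [Con.vars])), h1 _ (h4 j (by simp [Con.vars])),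
          h1 _ (h4 k (by simp [Con.vars]))]
      | mul i j k =>
        simp only [cval]
        rw [h1 _ (h4 i (by simp [Con.vars])), h1 _ (h4 j (by simp [Con.vars])),
          h1 _ (h4 k (by simp [Con.vars]))]
    set r := rawEval w₀ (fraw (VV p) (sysOf p.2)) with hr
    have hr0 : 0 < r := by
      rw [hr, rawEval_fraw, ← hN]
      have h3 : w₀ (N + 3) = 1 := by simp [w₀]
      rw [h3]
      have := sum_sq_nonneg' (sysOf p.2) (cval (VV p) w₀)
      linarith
    have hne : t (EE p).length / r ≠ 0 ∨ t ((EE p).length + 1) / r ≠ 0 := by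
      rcases hc' with h | h
      · exact Or.inl (div_ne_zero h hr0.ne')
      · exact Or.inr (div_ne_zero h hr0.ne')
    obtain ⟨P, Q, s, hP, hQ⟩ := exists_pqs hne
    let w : ℕ → ℝ := fun k => if k < N then w₀ k else if k = N then P else
      if k = N + 1 then Q else if k = N + 2 then s else 1
    have w1 : ∀ k < N, w k = w₀ k := fun k hk => by simp [w, hk]
    have w2 : w N = P := by simp [w]
    have w3 : w (N + 1) = Q := by simp [w]
    have w4 : w (N + 2) = s := by simp [w]
    have w5 : w (N + 3) = 1 := by simp [w]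
    refine ⟨w, ?_⟩
    rw [comps_iff, ← hN, hbase w w1 w5, w2, w3, w4, hQ, hP]
    refine ⟨fun j hj => ?_, ?_, ?_⟩
    · have hlt := List.idxOf_lt_length_of_mem (hpos j hj)
      rw [w1 _ hlt]
      simp only [w₀]
      rw [if_pos hlt, List.getD_eq_getElem _ _ hlt, List.getElem_idxOf hlt,
        Nat.mul_div_cancel_left _ (by norm_num), hnd.idxOf_getElem j hj]
    · field_simp
    · field_simp

/-- **Correctness of the reduction.** -/
theorem aer_iff_surj (p : List ℕ × Fm) : AER p ↔ Surjectivity (sinst p) := by
  rw [sinst, surj_iff (comps_ok p)]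
  exact ⟨surj_of_aer p, aer_of_surj p⟩

theorem degree_sinst (p : List ℕ × Fm) : DegreeLe7 (sinst p) := by
  intro g hg
  obtain ⟨a, ha, rfl⟩ := List.mem_map.1 hg
  exact collect_deg_le (comps_ok p a ha)

/-! ### Polynomial time -/

section

variable {α : Type} [TEnc α]

theorem poly_mulRaw {a b : α → List (Bool × List ℕ)} (ha : Poly a) (hb : Poly b) :
    Poly (fun x => mulRaw (a x) (b x)) := by
  refine Poly.flatMap
    (F := fun x p => (b x).map fun p' => (xor p.1 p'.1, p.2 ++ p'.2)) ha ?_
  refine Poly.map
    (F := fun (x : α × Bool × List ℕ) p' => (xor x.2.1 p'.1, x.2.2 ++ p'.2))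
    (hb.comp (Poly.fst Poly.id)) ?_
  exact Poly.pair (Poly.xor (Poly.fst (Poly.snd (Poly.fst Poly.id)))
    (Poly.fst (Poly.snd Poly.id)))
    (Poly.append (Poly.snd (Poly.snd (Poly.fst Poly.id))) (Poly.snd (Poly.snd Poly.id)))

theorem craw_eq (V : List ℕ) (c : Con) : craw V c =
    if c.code.1 = 0 then [(false, [V.idxOf c.code.2.1]), (true, [])]
    else if c.code.1 = 1 then [(false, [V.idxOf c.code.2.1]), (false, [V.idxOf c.code.2.2.1]),
      (true, [V.idxOf c.code.2.2.2])]
    else [(false, [V.idxOf c.code.2.1, V.idxOf c.code.2.2.1]),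
      (true, [V.idxOf c.code.2.2.2])] := by
  cases c <;> rfl

theorem poly_craw {V : α → List ℕ} {c : α → Con} (hV : Poly V) (hc : Poly c) :
    Poly (fun a => craw (V a) (c a)) := by
  have h := poly_con_code hc
  have h1 := poly_idxOf hV (Poly.fst (Poly.snd h))
  have h2 := poly_idxOf hV (Poly.fst (Poly.snd (Poly.snd h)))
  have h3 := poly_idxOf hV (Poly.snd (Poly.snd (Poly.snd h)))
  have l1 : ∀ {x : α → ℕ}, Poly x → Poly (fun a => [x a]) := fun hx =>
    Poly.cons hx (Poly.const [])
  have l2 : ∀ {x y : α → ℕ}, Poly x → Poly y → Poly (fun a => [x a, y a]) := fun hx hy =>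
    Poly.cons hx (Poly.cons hy (Poly.const []))
  refine (Poly.ite (Poly.decide_eq (Poly.fst h) (Poly.const 0))
    (Poly.cons (Poly.pair (Poly.const false) (l1 h1)) (Poly.const [(true, [])]))
    (Poly.ite (Poly.decide_eq (Poly.fst h) (Poly.const 1))
      (Poly.cons (Poly.pair (Poly.const false) (l1 h1))
        (Poly.cons (Poly.pair (Poly.const false) (l1 h2))
          (Poly.cons (Poly.pair (Poly.const true) (l1 h3)) (Poly.const []))))
      (Poly.cons (Poly.pair (Poly.const false) (l2 h1 h2))
        (Poly.cons (Poly.pair (Poly.const true) (l1 h3))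
          (Poly.const []))))).congr fun a => ?_
  exact (craw_eq (V a) (c a)).symm

theorem poly_EE {p : α → List ℕ × Fm} (hp : Poly p) : Poly (fun a => EE (p a)) :=
  poly_dedup (Poly.fst hp)

theorem poly_VV {p : α → List ℕ × Fm} (hp : Poly p) : Poly (fun a => VV (p a)) := by
  refine Poly.append ?_ ?_
  · exact Poly.map (F := fun _ i => 2 * i) (poly_EE hp)
      (Poly.mul (Poly.const 2) (Poly.snd Poly.id))
  · exact Poly.flatMap (F := fun _ c => Con.vars c) (poly_sysOf (Poly.snd hp))
      (poly_con_vars (Poly.snd Poly.id))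

theorem poly_fraw {V : α → List ℕ} {S : α → List Con} (hV : Poly V) (hS : Poly S) :
    Poly (fun a => fraw (V a) (S a)) := by
  refine Poly.append ?_ ?_
  · refine Poly.flatMap (F := fun a c => mulRaw (craw (V a) c) (craw (V a) c)) hS ?_
    have h := poly_craw (hV.comp (Poly.fst Poly.id)) (Poly.snd (Poly.id (α := α × Con)))
    exact poly_mulRaw h h
  · have h1 : Poly (fun a => (V a).length + 3) := Poly.add (Poly.length hV) (Poly.const 3)
    exact Poly.cons (Poly.pair (Poly.const false) (Poly.cons h1 (Poly.cons h1 (Poly.const []))))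
      (Poly.const [])

theorem poly_p1 {N : α → ℕ} (hN : Poly N) : Poly (fun a => p1 (N a)) :=
  Poly.cons (Poly.const (false, [])) (Poly.cons (Poly.pair (Poly.const false)
    (Poly.cons hN (Poly.cons (Poly.succ hN) (Poly.const [])))) (Poly.const []))

theorem poly_p2 {N : α → ℕ} (hN : Poly N) : Poly (fun a => p2 (N a)) := by
  have h1 := Poly.succ hN
  have h2 : Poly (fun a => N a + 2) := Poly.add hN (Poly.const 2)
  exact Poly.cons (Poly.pair (Poly.const false) (Poly.cons h1 (Poly.const [])))
    (Poly.cons (Poly.pair (Poly.const false) (Poly.cons h2 (Poly.const [])))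
      (Poly.cons (Poly.pair (Poly.const false)
        (Poly.cons h2 (Poly.cons hN (Poly.cons h1 (Poly.const []))))) (Poly.const [])))

theorem poly_comps {p : α → List ℕ × Fm} (hp : Poly p) : Poly (fun a => comps (p a)) := by
  have hV := poly_VV hp
  have hN := Poly.length hV
  have hf := poly_fraw hV (poly_sysOf (Poly.snd hp))
  refine Poly.append ?_ (Poly.cons (poly_mulRaw (poly_p1 hN) hf)
    (Poly.cons (poly_mulRaw (poly_p2 hN) hf) (Poly.const [])))
  refine Poly.map (F := fun a i => [(false, [(VV (p a)).idxOf (2 * i)])]) (poly_EE hp) ?_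
  exact Poly.cons (Poly.pair (Poly.const false) (Poly.cons
    (poly_idxOf (hV.comp (Poly.fst Poly.id)) (Poly.mul (Poly.const 2) (Poly.snd Poly.id)))
    (Poly.const []))) (Poly.const [])

theorem upoly_sn {p : α → List ℕ × Fm} (hp : Poly p) : UPoly (fun a => sn (p a)) :=
  UPoly.add (UPoly.length (poly_VV hp)) (UPoly.const 4)

theorem poly_sinst {p : α → List ℕ × Fm} (hp : Poly p) : Poly (fun a => sinst (p a)) := by
  have hn := upoly_sn hp
  refine Poly.pair hn.toPoly ?_
  exact Poly.map (F := fun a r => collect (sn (p a)) r) (poly_comps hp)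
    (poly_collect (hn.comp (Poly.fst Poly.id)) (Poly.snd Poly.id))

end

/-- Hardness by a reduction from the sentences `∀ x ∃ y, φ`. -/
theorem AERHardWithin.of_poly {α : Type} [TEnc α] {Pr P : α → Prop} {F : List ℕ × Fm → α}
    (hF : Poly F) (hPr : ∀ p, Pr (F p)) (h : ∀ p, AER p ↔ P (F p)) : AERHardWithin Pr P := by
  rintro L' ⟨g, hg, hL⟩
  have h1 : PC (id : List Bool → List Bool) (bits : List ℕ × Fm → List Bool) g :=
    H642R2.TMSim.polyTime_toPC hg
  have h3 : PC (id : List Bool → List Bool) (bits : α → List Bool) (fun x => F (g x)) :=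
    PC.comp (g := F) (eb := (bits : List ℕ × Fm → List Bool)) hF h1
  have h4 : PC (id : List Bool → List Bool) (id : List Bool → List Bool)
    (fun x => bits (F (g x))) := h3
  exact ⟨fun x => F (g x), PC.toPolyTime h4, fun w => hPr _, fun x => by rw [hL, h]⟩

theorem AERHardWithin.toAERHard {α : Type} [TEnc α] {Pr P : α → Prop}
    (h : AERHardWithin Pr P) : AERHard (lang P) := by
  intro L hL
  obtain ⟨f, hf, _, h1⟩ := h L hL
  refine ⟨fun w => bits (f w), hf, fun w => ?_⟩
  rw [h1]
  constructor
  · intro hP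
    exact ⟨_, rfl, hP⟩
  · rintro ⟨a, ha, hP⟩
    rwa [bits_injective ha] at hP

theorem surj_hard : AERHardWithin DegreeLe7 Surjectivity :=
  AERHardWithin.of_poly (poly_sinst Poly.id) degree_sinst aer_iff_surj

end Pool.Agent.NPC.R537SJ
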